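import Pool.Agent.Helper98.ComplexLT.Main

/-! The Demuth-Hansmann-Katriel inequality for complex potentials in dimension one, for every
`γ > 1/2` and every `σ > 1/2`. Algebraic multiplicities are counted. -/

namespace Pool.Agent.Results.MP_95af1f_mp.DimOne

open MeasureTheory Pool.Agent.Helper98.ComplexLT
open scoped ENNReal

theorem result {γ σ : ℝ} (hγ : 1 / 2 < γ) (hσ : 1 / 2 < σ) :
    ∃ C : ℝ, 0 ≤ C ∧ ∀ ħ : ℝ, 0 < ħ → ∀ V : ℝ → ℂ,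
      MemLp V (ENNReal.ofReal (γ + 1 / 2)) volume →
      ∑' E : {E : ℂ // ¬ (0 ≤ E.re ∧ E.im = 0)},
        (algMult ħ V E : ℝ≥0∞) *
          ENNReal.ofReal (‖(E : ℂ)‖ ^ (-σ) * distPos E ^ (γ + σ))
        ≤ ENNReal.ofReal (C * ħ⁻¹ * ∫ x, ‖V x‖ ^ (γ + 1 / 2)) :=
  complex_lt hγ hσ

end Pool.Agent.Results.MP_95af1f_mp.DimOne
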