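import Pool.Agent.Helper98.CLTd.Assemble
import Pool.Agent.Helper98.CLTd.Bridge

/-! The inequality `(*)` fails in dimension two for every `0 < γ < 1/500` and every `σ`: no
constant works. -/

namespace Pool.Agent.Results.MP_95af1f_mp.DimTwoFails

open Pool.Agent.Helper98.CLTd

theorem result {γ : ℝ} (hγ : 0 < γ) (hγ' : γ < 1 / 500) (σ : ℝ) : ¬ ∃ C : ℝ, Stmt.DHK 2 γ σ C :=
  fun ⟨C, hC⟩ => not_DHK γ σ C hγ hγ' ((DHK_iff 2 γ σ C).1 hC)

end Pool.Agent.Results.MP_95af1f_mp.DimTwoFails
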